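import Mathlib
import Pool.Agent.H10.NonReal

set_option autoImplicit false

namespace Pool.Agent.Results.MP_efc620_co.Gem

open Finset Polynomial SimpleGraph

/-- Every cycle of length at least four has a chord. -/
def Chordal {V : Type} (G : SimpleGraph V) : Prop :=
  ∀ m : ℕ, 4 ≤ m → ∀ f : Fin m → V, Function.Injective f →
    (∀ i j, (cycleGraph m).Adj i j → G.Adj (f i) (f j)) →
    ∃ i j, i ≠ j ∧ ¬ (cycleGraph m).Adj i j ∧ G.Adj (f i) (f j)

/-- The number of cycles of a permutation, fixed points included. -/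
def ncyc {n : ℕ} (σ : Equiv.Perm (Fin n)) : ℕ :=
  (univ.image (fun v => univ.filter (fun w => σ.SameCycle v w))).card

/-- The number of permutations with `k` cycles moving each non-fixed vertex to a neighbour. -/
def brack {n : ℕ} (G : SimpleGraph (Fin n)) [DecidableRel G.Adj] (k : ℕ) : ℕ :=
  (univ.filter (fun σ : Equiv.Perm (Fin n) =>
    ncyc σ = k ∧ ∀ v, σ v ≠ v → G.Adj v (σ v))).card

/-- The graphical cycle polynomial. -/
noncomputable def cyclePoly {n : ℕ} (G : SimpleGraph (Fin n)) [DecidableRel G.Adj] : ℂ[X] :=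
  ∑ k ∈ Icc 1 n, C (brack G k : ℂ) * X ^ k

/-- The gem: the path `0,1,2,3` and a vertex `4` joined to all of it. -/
def gem : SimpleGraph (Fin 5) where
  Adj a b := a ≠ b ∧ (a.1 + 1 = b.1 ∨ b.1 + 1 = a.1 ∨ a.1 = 4 ∨ b.1 = 4)
  symm := ⟨fun a b h => ⟨h.1.symm, by omega⟩⟩
  loopless := ⟨fun a h => h.1 rfl⟩

instance : DecidableRel gem.Adj := fun a b => by unfold gem; infer_instance

theorem c4 : ∀ a b c d : Fin 5, gem.Adj a b → gem.Adj b c → gem.Adj c d → gem.Adj d a →
    a ≠ c → b ≠ d → gem.Adj a c ∨ gem.Adj b d := by decide +kernel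

theorem c5 : ∀ a b c d e : Fin 5, gem.Adj a b → gem.Adj b c → gem.Adj c d → gem.Adj d e →
    gem.Adj e a → a ≠ c → a ≠ d → b ≠ d → b ≠ e → c ≠ e →
      gem.Adj a c ∨ gem.Adj b d ∨ gem.Adj c e := by decide +kernel

theorem chordal : Chordal gem := by
  intro m hm f hf h
  have h5 : m ≤ 5 := by simpa using Fintype.card_le_of_injective f hf
  have hne : ∀ i j : Fin m, i ≠ j → f i ≠ f j := fun i j hij e => hij (hf e)
  obtain rfl | rfl : m = 4 ∨ m = 5 := by omega
  · rcases c4 (f 0) (f 1) (f 2) (f 3) (h _ _ (by decide)) (h _ _ (by decide)) (h _ _ (by decide))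
      (h _ _ (by decide)) (hne _ _ (by decide)) (hne _ _ (by decide)) with h | h
    · exact ⟨0, 2, by decide, by decide, h⟩
    · exact ⟨1, 3, by decide, by decide, h⟩
  · rcases c5 (f 0) (f 1) (f 2) (f 3) (f 4) (h _ _ (by decide)) (h _ _ (by decide))
      (h _ _ (by decide)) (h _ _ (by decide)) (h _ _ (by decide)) (hne _ _ (by decide))
      (hne _ _ (by decide)) (hne _ _ (by decide)) (hne _ _ (by decide)) (hne _ _ (by decide))
      with h | h | h
    · exact ⟨0, 2, by decide, by decide, h⟩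
    · exact ⟨1, 3, by decide, by decide, h⟩
    · exact ⟨2, 4, by decide, by decide, h⟩

theorem b1 : brack gem 1 = 2 ∧ brack gem 2 = 8 ∧ brack gem 3 = 13 ∧ brack gem 4 = 7 ∧
    brack gem 5 = 1 := by decide +kernel

theorem result :
    ∃ (n : ℕ) (G : SimpleGraph (Fin n)) (_ : DecidableRel G.Adj), 1 ≤ n ∧ G.Connected ∧ Chordal G ∧
      ∃ z : ℂ, (cyclePoly G).IsRoot z ∧ z.im ≠ 0 := by
  refine ⟨5, gem, inferInstance, by norm_num, by decide +kernel, chordal, ?_⟩
  apply Pool.Agent.H10.NonReal.exists_nonreal _ (-1 / 2) (1 / 4)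
  obtain ⟨h1, h2, h3, h4, h5⟩ := b1
  have : Icc 1 5 = ({1, 2, 3, 4, 5} : Finset ℕ) := by decide
  simp only [cyclePoly, this]
  rw [sum_insert (by decide), sum_insert (by decide), sum_insert (by decide),
    sum_insert (by decide), sum_singleton, h1, h2, h3, h4, h5]
  simp only [eval_add, eval_mul, eval_C, eval_pow, eval_X, Complex.normSq_apply]
  simp [pow_succ]
  norm_num

end Pool.Agent.Results.MP_efc620_co.Gem
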